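import Mathlib
import Pool.Agent.Helper353.PL.P_main3

set_option autoImplicit false

namespace Pool.Agent.Results.MP_d74254_an.ThreeDim

/-- In dimension three no nonzero real homogeneous polynomial of degree `m ≥ 2` solves the
`p`-Laplace equation, for every `p ∈ (1,∞)`, `p ≠ 2`. -/
theorem result :
    ∀ (p : ℝ), 1 < p → p ≠ 2 → ∀ (m : ℕ), 2 ≤ m →
      ¬ ∃ u : MvPolynomial (Fin 3) ℝ, u ≠ 0 ∧ u.IsHomogeneous m ∧
        ∀ x : Fin 3 → ℝ,
          (∑ i, (MvPolynomial.eval x (MvPolynomial.pderiv i u)) ^ 2) *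
              (∑ i, MvPolynomial.eval x (MvPolynomial.pderiv i (MvPolynomial.pderiv i u))) +
            (p - 2) * ∑ i, ∑ j,
              MvPolynomial.eval x (MvPolynomial.pderiv i u) *
                MvPolynomial.eval x (MvPolynomial.pderiv j u) *
                MvPolynomial.eval x (MvPolynomial.pderiv i (MvPolynomial.pderiv j u)) = 0 :=
  fun p hp hp2 m hm => PL.main3 p hp hp2 m hm

end Pool.Agent.Results.MP_d74254_an.ThreeDim
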